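import Pool.Agent.Helper60.AD.Defs
import Pool.Agent.Helper22.AE.E2
import Pool.Agent.Helper22.AC.Defs

/-!
# MM (MP_fb29e9_nt): all power moments of the error term, uniformly in the centre. Definitions

Base notation: `Pool.Agent.Helper22.AE`, `Pool.Agent.Helper60.AD` (`Sc`, `fq`, `Yq`), `cntc` (AC), `dt`, `sqa` (GC).
-/

open MeasureTheory Real Set Filter Topology

set_option autoImplicit false

namespace Pool.Agent.Helper92.MM

open Pool.Agent.Helper22.AE
open Pool.Agent.Helper22.AC (cntc)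
open Pool.Agent.Helper60.AD

/-- the arcs of the tuple `a` inside the arc `j` of generation `s` -/
noncomputable def arcs {J M : ℕ} (n s j : ℕ) (a : Fin J → Fin M) : Fin J → Finset (ℤ × ℤ) :=
  fun t => arcSet (blk n) (8 * M ^ (s + 1)) (M * j + a t)

/-- the multilinear square function of generation `s`, for all centres -/
noncomputable def Vs (J M s : ℕ) (h : ℝ → ℝ) (n : ℕ) (b : ℤ × ℤ → ℂ) (R α : ℝ) : ℝ :=
  ∑ j ∈ Finset.range (8 * M ^ s), ∑ a ∈ gapT J M, ((fq (arcs n s j a)).card : ℝ) * Yq h (arcs n s j a) (fun _ => b) R α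

/-- the constant in the multiscale inequality -/
noncomputable def Aj (J M m : ℕ) : ℝ := (m + 1) * (8 * (4 * J) ^ m) * (2 * M)

/-- a majorant of the `2J`-th power of the exponential sum, for all centres -/
noncomputable def Maj (J M m : ℕ) (h : ℝ → ℝ) (n : ℕ) (b : ℤ × ℤ → ℂ) (R α : ℝ) : ℝ :=
  Aj J M m ^ (2 * J) * (Dc (2 ^ n) M m ^ (2 * J) + ∑ s ∈ Finset.range m, Vs J M s h n b R α)

/-- the good angles -/
def gd1 : Set ℝ := Icc (-π) π ∩ {α | 1 / 2 ≤ |cos α|}

/-- the number `M = ⌊x^(1/40)⌋`, `x = 2^n` (the depth is `22`) -/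
noncomputable def Mx (n : ℕ) : ℕ := ⌊((2 : ℝ) ^ n) ^ (1 / 40 : ℝ)⌋₊

/-- the difference of the phases of two tuples -/
noncomputable def Ph {J : ℕ} (h : ℝ → ℝ) (k k' : Fin J → ℤ × ℤ) (α : ℝ) : ℝ :=
  ∑ t, nk (k t) * gph h (k t) α - ∑ t, nk (k' t) * gph h (k' t) α

/-- the `2J`-th moment over the radii in `[X, 2X]` of the largest error term over all centres -/
noncomputable def mom (J : ℕ) (H : ℝ → ℝ) (X : ℝ) : ENNReal :=
  ∫⁻ R in Icc X (2 * X), ⨆ c : ℝ × ℝ, ENNReal.ofReal (|cntc H c R - area H * R ^ 2| ^ (2 * J))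

/-- the same over the rational centres -/
noncomputable def momq (J : ℕ) (H : ℝ → ℝ) (X : ℝ) : ENNReal :=
  ∫⁻ R in Icc X (2 * X), ⨆ c : ℚ × ℚ, ENNReal.ofReal (|cntc H ((c.1 : ℝ), (c.2 : ℝ)) R - area H * R ^ 2| ^ (2 * J))

end Pool.Agent.Helper92.MM
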