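import Pool.Agent.Helper92.MM.Pairs
import Pool.Agent.Helper44.MM.M2
import Pool.Agent.Helper75.MM.Osc
import Pool.Agent.Helper75.MM.Coll
import Pool.Agent.Helper43.AD.A2
import Pool.Agent.Helper96.AD.A6
import Pool.Agent.Helper22.AE.C1
import Pool.Agent.Helper22.AE.D3

/-!
# MM-M4: small blocks
-/

open MeasureTheory Real Set Filter Topology

set_option autoImplicit false

namespace Pool.Agent.Helper92.MMS

open Pool.Agent.Helper22.AE
open Pool.Agent.Helper60.AD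
open Pool.Agent.Helper92.MM
open Pool.Agent.Helper44.MM (Maj_cont Maj_bdd)
open Pool.Agent.Helper75.MM (pair_osc no_coll)

/-! ### the kernel -/

private lemma k0c {β : ℝ} (hβ : 0 < β) : Continuous (k0 β) := by
  unfold k0
  exact continuous_const.div (by fun_prop) (fun α => by positivity)

private lemma k0n {β : ℝ} (hβ : 0 < β) (α : ℝ) : 0 ≤ k0 β α := by
  unfold k0
  positivity

private lemma gd1_compact : IsCompact gd1 := isCompact_Icc.inter_right (isClosed_le continuous_const (by fun_prop))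

private lemma gd1_meas : MeasurableSet gd1 := gd1_compact.measurableSet

private lemma k0_gd1 {β : ℝ} (hβ : 0 < β) : ∫ α in gd1, k0 β α ≤ 20 := by
  have hpi := Real.pi_pos
  refine le_trans ?_ (k0_int hβ)
  rw [intervalIntegral.integral_of_le (by linarith), ← integral_Icc_eq_integral_Ioc]
  refine setIntegral_mono_set ((k0c hβ).continuousOn.integrableOn_compact isCompact_Icc) ?_ ?_
  · exact ae_of_all _ (fun α => k0n hβ α)
  · exact (inter_subset_left (s := Icc (-π) π)).eventuallyLE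

/-! ### sizes -/

/-- `y = x^(1/40)` -/
private noncomputable def yy (n : ℕ) : ℝ := ((2 : ℝ) ^ n) ^ (1 / 40 : ℝ)

private lemma yy_one (n : ℕ) : 1 ≤ yy n := Real.one_le_rpow (one_le_pow₀ (by norm_num)) (by norm_num)

private lemma yy_pow (n : ℕ) : yy n ^ 40 = 2 ^ n := by
  unfold yy
  rw [← Real.rpow_natCast (((2 : ℝ) ^ n) ^ (1 / 40 : ℝ)) 40, ← Real.rpow_mul (by positivity)]
  norm_num

private lemma Mx_le (n : ℕ) : ((Mx n : ℕ) : ℝ) ≤ yy n := Nat.floor_le (zero_le_one.trans (yy_one n))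

private lemma Mx_ge (n : ℕ) : yy n / 2 ≤ ((Mx n : ℕ) : ℝ) := by
  have h1 := Nat.lt_floor_add_one (yy n)
  have h2 := yy_one n
  have h3 : 1 ≤ Mx n := Nat.le_floor (by rw [Nat.cast_one]; exact yy_one n)
  have h4 : (1 : ℝ) ≤ ((Mx n : ℕ) : ℝ) := by exact_mod_cast h3
  have h5 : yy n < ((Mx n : ℕ) : ℝ) + 1 := h1
  linarith

private lemma Mx_one (n : ℕ) : 1 ≤ Mx n := Nat.le_floor (by rw [Nat.cast_one]; exact yy_one n)

private lemma Mx_pow_le {n t : ℕ} (ht : t ≤ 40) : ((Mx n : ℕ) : ℝ) ^ t ≤ 2 ^ n := by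
  have h1 := yy_one n
  calc ((Mx n : ℕ) : ℝ) ^ t ≤ yy n ^ t := pow_le_pow_left₀ (Nat.cast_nonneg _) (Mx_le n) t
    _ ≤ yy n ^ 40 := pow_le_pow_right₀ h1 ht
    _ = 2 ^ n := yy_pow n

private lemma Dc_nonneg {x M : ℝ} (hx : 0 ≤ x) (hM : 0 ≤ M) (t : ℕ) : 0 ≤ Dc x M t := by
  unfold Dc
  positivity

private lemma Dc_le {n t : ℕ} (ht : t ≤ 40) : Dc (2 ^ n) (Mx n) t ≤ 60 * (2 ^ n) ^ 2 / ((Mx n : ℕ) : ℝ) ^ t := by
  have hM0 : (0 : ℝ) < ((Mx n : ℕ) : ℝ) := by exact_mod_cast Mx_one n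
  have hx : (1 : ℝ) ≤ 2 ^ n := one_le_pow₀ (by norm_num)
  have hMt := Mx_pow_le (n := n) ht
  have hMt0 : 0 < ((Mx n : ℕ) : ℝ) ^ t := by positivity
  have hπ := Real.pi_lt_d2
  have hπ0 := Real.pi_pos
  set x : ℝ := 2 ^ n with hxdef
  set m : ℝ := ((Mx n : ℕ) : ℝ) ^ t with hm
  unfold Dc
  rw [← hm]
  have h1 : 4 * x + 1 ≤ 5 * x := by linarith
  have h2 : 6 * x * (2 * π / (8 * m)) + 1 ≤ 6 * x / m := by
    have e1 : 6 * x * (2 * π / (8 * m)) = (3 / 2 * π) * (x / m) := by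
      field_simp
      ring
    have e2 : 1 ≤ x / m := by
      rw [le_div_iff₀ hMt0]
      linarith
    have e3 : (3 / 2 * π) * (x / m) ≤ 5 * (x / m) := by
      apply mul_le_mul_of_nonneg_right _ (by positivity)
      linarith
    rw [e1]
    have e4 : 6 * x / m = 5 * (x / m) + x / m := by ring
    rw [e4]
    linarith
  calc 2 * (4 * x + 1) * (6 * x * (2 * π / (8 * m)) + 1) ≤ 2 * (5 * x) * (6 * x / m) := by
        apply mul_le_mul _ h2 (by positivity) (by positivity)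
        linarith
    _ = 60 * x ^ 2 / m := by ring

/-- the number of points of the arcs -/
private lemma arcs_prod_le {J n s j : ℕ} {M : ℕ} (hM : 1 ≤ M) (a : Fin J → Fin M) :
    ∏ t, ((arcs n s j a t).card : ℝ) ≤ Dc (2 ^ n) M (s + 1) ^ J := by
  have hcard : ∀ t, ((arcs n s j a t).card : ℝ) ≤ Dc (2 ^ n) M (s + 1) := by
    intro t
    have h8 : 8 ≤ 8 * M ^ (s + 1) := Nat.le_mul_of_pos_right 8 (Nat.pow_pos hM)
    have h3 := arc_card n h8 (M * j + a t)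
    unfold Dc arcs
    push_cast at h3
    exact h3
  calc ∏ t, ((arcs n s j a t).card : ℝ) ≤ ∏ _t : Fin J, Dc (2 ^ n) M (s + 1) :=
        Finset.prod_le_prod (fun i _ => Nat.cast_nonneg _) (fun i _ => hcard i)
    _ = Dc (2 ^ n) M (s + 1) ^ J := by simp

private lemma arcs_fq_le {J n s j : ℕ} {M : ℕ} (hM : 1 ≤ M) (a : Fin J → Fin M) :
    ((fq (arcs n s j a)).card : ℝ) ≤ (8 * J * 2 ^ n + 1) * (5 * J * 2 ^ n / M ^ s + 1) :=
  Pool.Agent.Helper43.AD.fq_card hM _ fun t => Pool.Agent.Helper43.AD.arc_child (blk n) hM (a t).isLt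

private lemma gapT_card92 (J M : ℕ) : ((gapT J M).card : ℝ) ≤ (M : ℝ) ^ J := by
  have h : (gapT J M).card ≤ M ^ J := by
    refine (Finset.card_filter_le _ _).trans ?_
    simp
  exact_mod_cast h

private lemma arcs_sep {J n s j M : ℕ} (hM : 1 ≤ M) {a : Fin J → Fin M} (ha : a ∈ gapT J M) :
    ∀ i i', i ≠ i' → ∀ k ∈ arcs n s j a i, ∀ k' ∈ arcs n s j a i', 1 / (2 * (M : ℝ) ^ (s + 1)) ≤ ‖zk k - zk k'‖ := by
  have hI' : ∀ t t', t ≠ t' → (a t : ℕ) + 2 ≤ a t' ∨ (a t' : ℕ) + 2 ≤ a t := (Finset.mem_filter.mp ha).2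
  intro i i' hii k hk k' hk'
  rcases hI' i i' hii with h | h
  · exact arc_sep hM (a i').isLt h hk hk'
  · rw [norm_sub_rev]
    exact arc_sep hM (a i).isLt h hk' hk

private lemma arcs_nk {J n s j M : ℕ} (a : Fin J → Fin M) :
    ∀ i, ∀ k ∈ arcs n s j a i, (2 : ℝ) ^ n ≤ nk k ∧ nk k ≤ 2 ^ (n + 1) := by
  intro i k hk
  have h3 : k ∈ blk n := (Finset.mem_filter.mp hk).1
  have h4 := (Finset.mem_filter.mp h3).2
  exact ⟨h4.1, h4.2.le⟩

/-! ### the nonresonant part -/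

/-- the nonresonant part of one product -/
private noncomputable def osc {L J : ℕ} (H₀ : ℝ → ℝ) (k k' : Fin J → ℤ × ℤ) (u v : ℝ) (p : ((Fin L → ℝ) × (Fin L → ℝ)) × ℝ) : ℝ :=
  ‖∫ R in Icc u v, ee (-(R * Ph (Hw H₀ p.1) k k' p.2))‖

private lemma Ph_cont {L J : ℕ} {H₀ : ℝ → ℝ} (h0 : ContDiff ℝ 2 H₀) (k k' : Fin J → ℤ × ℤ) :
    Continuous (fun p : ((Fin L → ℝ) × (Fin L → ℝ)) × ℝ => Ph (Hw H₀ p.1) k k' p.2) := by
  have hg : ∀ q : ℤ × ℤ, Continuous (fun p : ((Fin L → ℝ) × (Fin L → ℝ)) × ℝ => gph (Hw H₀ p.1) q p.2) := by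
    intro q
    have e : (fun p : ((Fin L → ℝ) × (Fin L → ℝ)) × ℝ => gph (Hw H₀ p.1) q p.2) =
        fun p => gph H₀ q p.2 + lform q p.2 p.1 := by
      funext p
      rw [gph_Hw h0]
    rw [e]
    have h1 : Continuous (fun α : ℝ => gph H₀ q α) := by
      have hd : Continuous (deriv H₀) := h0.continuous_deriv (by norm_num)
      have hH : Continuous H₀ := h0.continuous
      unfold gph
      fun_prop
    exact (h1.comp continuous_snd).add ((lform_cont q).comp (continuous_snd.prodMk continuous_fst))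
  unfold Ph
  exact (continuous_finsetSum _ fun t _ => continuous_const.mul (hg (k t))).sub
    (continuous_finsetSum _ fun t _ => continuous_const.mul (hg (k' t)))

private lemma osc_cont {L J : ℕ} {H₀ : ℝ → ℝ} (h0 : ContDiff ℝ 2 H₀) (k k' : Fin J → ℤ × ℤ) (u v : ℝ) :
    Continuous (osc (L := L) H₀ k k' u v) := by
  unfold osc
  refine Continuous.norm ?_
  refine continuous_parametric_integral_of_continuous ?_ isCompact_Icc
  have h1 := Ph_cont (L := L) h0 k k'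
  refine ee_cont.comp ?_
  exact (continuous_snd.mul (h1.comp continuous_fst)).neg

private lemma osc_nonneg {L J : ℕ} (H₀ : ℝ → ℝ) (k k' : Fin J → ℤ × ℤ) (u v : ℝ) (p : ((Fin L → ℝ) × (Fin L → ℝ)) × ℝ) :
    0 ≤ osc H₀ k k' u v p := norm_nonneg _

private lemma osc_le {L J : ℕ} (H₀ : ℝ → ℝ) (k k' : Fin J → ℤ × ℤ) {u v : ℝ} (huv : u ≤ v) (p : ((Fin L → ℝ) × (Fin L → ℝ)) × ℝ) :
    osc H₀ k k' u v p ≤ v - u := by
  unfold osc
  refine (norm_integral_le_integral_norm _).trans ?_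
  simp only [ee_norm]
  rw [setIntegral_const, smul_eq_mul, mul_one, Real.volume_real_Icc_of_le huv]

/-- the nonresonant part of one product of arcs -/
private noncomputable def osum {L J : ℕ} (H₀ : ℝ → ℝ) (A : Fin J → Finset (ℤ × ℤ)) (u v : ℝ) (p : ((Fin L → ℝ) × (Fin L → ℝ)) × ℝ) : ℝ :=
  ∑ k ∈ Fintype.piFinset A, ∑ k' ∈ (Fintype.piFinset A).filter (fun k' => k' ≠ k), osc H₀ k k' u v p

private lemma osum_cont {L J : ℕ} {H₀ : ℝ → ℝ} (h0 : ContDiff ℝ 2 H₀) (A : Fin J → Finset (ℤ × ℤ)) (u v : ℝ) :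
    Continuous (osum (L := L) H₀ A u v) := by
  unfold osum
  exact continuous_finsetSum _ fun k _ => continuous_finsetSum _ fun k' _ => osc_cont h0 k k' u v

private lemma osum_nonneg {L J : ℕ} (H₀ : ℝ → ℝ) (A : Fin J → Finset (ℤ × ℤ)) (u v : ℝ) (p : ((Fin L → ℝ) × (Fin L → ℝ)) × ℝ) :
    0 ≤ osum H₀ A u v p :=
  Finset.sum_nonneg fun k _ => Finset.sum_nonneg fun k' _ => osc_nonneg _ _ _ _ _ _

private lemma osum_le {L J : ℕ} (H₀ : ℝ → ℝ) (A : Fin J → Finset (ℤ × ℤ)) {u v : ℝ} (huv : u ≤ v) :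
    ∃ C : ℝ, ∀ p : ((Fin L → ℝ) × (Fin L → ℝ)) × ℝ, osum H₀ A u v p ≤ C :=
  ⟨∑ k ∈ Fintype.piFinset A, ∑ _k' ∈ (Fintype.piFinset A).filter (fun k' => k' ≠ k), (v - u), fun p =>
    Finset.sum_le_sum fun k _ => Finset.sum_le_sum fun k' _ => osc_le H₀ k k' huv p⟩

/-- the mean of the nonresonant part -/
private lemma osum_mean {L J n s j M : ℕ} (hJ : 2 ≤ J) (hJL : 2 * J ≤ L) (hM : 1 ≤ M) {H₀ : ℝ → ℝ} (h0 : ContDiff ℝ 2 H₀)
    {a : Fin J → Fin M} (ha : a ∈ gapT J M) {α : ℝ} (hα : 1 / 2 ≤ |cos α|) (u : ℝ) {ℓ : ℝ} (hℓ : 0 ≤ ℓ) :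
    ∫ w : (Fin L → ℝ) × (Fin L → ℝ), osum H₀ (arcs n s j a) u (u + ℓ) (w, α) ∂(gm L) ≤
      (∏ t, ((arcs n s j a t).card : ℝ)) ^ 2 * sqrt (2 * ℓ / ((1 / (2 * (M : ℝ) ^ (s + 1))) ^ (2 * J) / (200 * J * 4 ^ J))) := by
  have hM0 : (0 : ℝ) < M := by exact_mod_cast hM
  have hM1 : (1 : ℝ) ≤ M := by exact_mod_cast hM
  have hτ : (0 : ℝ) < 1 / (2 * (M : ℝ) ^ (s + 1)) := by positivity
  have hτ1 : 1 / (2 * (M : ℝ) ^ (s + 1)) ≤ 1 := by
    rw [div_le_one (by positivity)]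
    have := one_le_pow₀ hM1 (n := s + 1)
    linarith
  have hJ0 : (0 : ℝ) < J := by exact_mod_cast (by omega : 0 < J)
  set η : ℝ := (1 / (2 * (M : ℝ) ^ (s + 1))) ^ (2 * J) / (200 * J * 4 ^ J) with hη
  have hη0 : 0 < η := by positivity
  set A := arcs n s j a with hA
  have hi : ∀ k k' : Fin J → ℤ × ℤ, Integrable (fun w : (Fin L → ℝ) × (Fin L → ℝ) => osc H₀ k k' u (u + ℓ) (w, α)) (gm L) := by
    intro k k'
    refine Integrable.of_bound (C := u + ℓ - u) ?_ (ae_of_all _ fun w => ?_)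
    · exact ((osc_cont h0 k k' u (u + ℓ)).comp (continuous_id.prodMk continuous_const)).aestronglyMeasurable
    · rw [Real.norm_of_nonneg (osc_nonneg _ _ _ _ _ _)]
      exact osc_le H₀ k k' (by linarith) _
  unfold osum
  rw [integral_finsetSum _ fun k _ => integrable_finsetSum _ fun k' _ => hi k k']
  have h1 : ∀ k ∈ Fintype.piFinset A, ∫ w : (Fin L → ℝ) × (Fin L → ℝ), ∑ k' ∈ (Fintype.piFinset A).filter (fun k' => k' ≠ k),
      osc H₀ k k' u (u + ℓ) (w, α) ∂(gm L) ≤ ((Fintype.piFinset A).card : ℝ) * sqrt (2 * ℓ / η) := by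
    intro k hk
    rw [integral_finsetSum _ fun k' _ => hi k k']
    have h2 : ∀ k' ∈ (Fintype.piFinset A).filter (fun k' => k' ≠ k),
        ∫ w : (Fin L → ℝ) × (Fin L → ℝ), osc H₀ k k' u (u + ℓ) (w, α) ∂(gm L) ≤ sqrt (2 * ℓ / η) := by
      intro k' hk'
      obtain ⟨hk'1, hk'2⟩ := Finset.mem_filter.1 hk'
      exact pair_osc hJL h0 k k' hη0 hα (no_coll hJ hτ hτ1 A (arcs_nk a) (arcs_sep hM ha) k hk k' hk'1 (Ne.symm hk'2)) u hℓ
    refine (Finset.sum_le_card_nsmul _ _ _ h2).trans ?_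
    rw [nsmul_eq_mul]
    refine mul_le_mul_of_nonneg_right ?_ (sqrt_nonneg _)
    exact_mod_cast Finset.card_filter_le _ _
  refine (Finset.sum_le_card_nsmul _ _ _ h1).trans (le_of_eq ?_)
  rw [nsmul_eq_mul, Fintype.card_piFinset]
  push_cast
  ring

/-! ### the integral over the radii -/

private lemma Yq_R {L J : ℕ} {H₀ : ℝ → ℝ} (h0 : ContDiff ℝ 2 H₀) (A : Fin J → Finset (ℤ × ℤ)) (b : ℤ × ℤ → ℂ)
    (w : (Fin L → ℝ) × (Fin L → ℝ)) (α : ℝ) : Continuous (fun R => Yq (Hw H₀ w) A (fun _ => b) R α) := by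
  have h1 := Pool.Agent.Helper96.AD.Yq_cont (L := L) h0 A (fun _ _ => b) (fun t k => continuous_const)
  have h2 : Continuous (fun R : ℝ => (((R, α) : ℝ × ℝ), w)) := by fun_prop
  have h3 := h1.comp h2
  simp only [Function.comp_def] at h3
  exact h3

/-- the diagonal part -/
private noncomputable def dg (J M n : ℕ) : ℝ := Dc (2 ^ n) M 22 ^ (2 * J) + ∑ s ∈ Finset.range 22, ∑ j ∈ Finset.range (8 * M ^ s),
  ∑ a ∈ gapT J M, ((fq (arcs n s j a)).card : ℝ) * ∏ t, ((arcs n s j a t).card : ℝ)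

/-- the nonresonant part -/
private noncomputable def nr (J M n : ℕ) {L : ℕ} (H₀ : ℝ → ℝ) (u v : ℝ) (p : ((Fin L → ℝ) × (Fin L → ℝ)) × ℝ) : ℝ :=
  ∑ s ∈ Finset.range 22, ∑ j ∈ Finset.range (8 * M ^ s), ∑ a ∈ gapT J M, ((fq (arcs n s j a)).card : ℝ) * osum H₀ (arcs n s j a) u v p

private lemma Maj_R {L J M n : ℕ} {H₀ : ℝ → ℝ} (h0 : ContDiff ℝ 2 H₀) (b : ℤ × ℤ → ℂ) (hb : ∀ k, ‖b k‖ ≤ 1)
    (w : (Fin L → ℝ) × (Fin L → ℝ)) (u : ℝ) {ℓ : ℝ} (hℓ : 0 ≤ ℓ) (α : ℝ) :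
    ∫ R in Icc u (u + ℓ), Maj J M 22 (Hw H₀ w) n b R α ≤ Aj J M 22 ^ (2 * J) * (ℓ * dg J M n + nr J M n H₀ u (u + ℓ) (w, α)) := by
  have hA : 0 ≤ Aj J M 22 ^ (2 * J) := by
    unfold Aj
    positivity
  have hiY : ∀ A : Fin J → Finset (ℤ × ℤ), IntegrableOn (fun R => Yq (Hw H₀ w) A (fun _ => b) R α) (Icc u (u + ℓ)) := fun A =>
    (Yq_R h0 A b w α).continuousOn.integrableOn_compact isCompact_Icc
  unfold Maj
  rw [integral_const_mul]
  refine mul_le_mul_of_nonneg_left ?_ hA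
  have hc : Integrable (fun _ : ℝ => Dc (2 ^ n) (M : ℝ) 22 ^ (2 * J)) (volume.restrict (Icc u (u + ℓ))) := integrable_const _
  have hv : Integrable (fun R : ℝ => ∑ s ∈ Finset.range 22, Vs J M s (Hw H₀ w) n b R α) (volume.restrict (Icc u (u + ℓ))) := by
    unfold Vs
    exact integrable_finsetSum _ fun s _ => integrable_finsetSum _ fun j _ => integrable_finsetSum _ fun a _ => (hiY _).const_mul _
  rw [integral_add hc hv, setIntegral_const, smul_eq_mul, Real.volume_real_Icc_of_le (by linarith)]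
  unfold dg nr Vs
  rw [mul_add, add_assoc]
  refine add_le_add (le_of_eq (by ring)) ?_
  rw [integral_finsetSum _ (fun s _ => integrable_finsetSum _ fun j _ => integrable_finsetSum _ fun a _ => (hiY _).const_mul _),
    Finset.mul_sum, ← Finset.sum_add_distrib]
  refine Finset.sum_le_sum fun s _ => ?_
  rw [integral_finsetSum _ (fun j _ => integrable_finsetSum _ fun a _ => (hiY _).const_mul _), Finset.mul_sum, ← Finset.sum_add_distrib]
  refine Finset.sum_le_sum fun j _ => ?_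
  rw [integral_finsetSum _ (fun a _ => (hiY _).const_mul _), Finset.mul_sum, ← Finset.sum_add_distrib]
  refine Finset.sum_le_sum fun a _ => ?_
  rw [integral_const_mul]
  have h1 := Yq_pairs (Hw H₀ w) (arcs n s j a) b hb u hℓ α
  have h2 : (0 : ℝ) ≤ ((fq (arcs n s j a)).card : ℝ) := Nat.cast_nonneg _
  calc ((fq (arcs n s j a)).card : ℝ) * ∫ R in Icc u (u + ℓ), Yq (Hw H₀ w) (arcs n s j a) (fun _ => b) R α
      ≤ ((fq (arcs n s j a)).card : ℝ) * (ℓ * ∏ t, ((arcs n s j a t).card : ℝ) + osum H₀ (arcs n s j a) u (u + ℓ) (w, α)) :=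
        mul_le_mul_of_nonneg_left h1 h2
    _ = _ := by ring

private lemma nr_cont {L : ℕ} (J M n : ℕ) {H₀ : ℝ → ℝ} (h0 : ContDiff ℝ 2 H₀) (u v : ℝ) : Continuous (nr J M n (L := L) H₀ u v) := by
  unfold nr
  exact continuous_finsetSum _ fun s _ => continuous_finsetSum _ fun j _ => continuous_finsetSum _ fun a _ =>
    continuous_const.mul (osum_cont h0 _ u v)

private lemma nr_nonneg {L : ℕ} (J M n : ℕ) (H₀ : ℝ → ℝ) (u v : ℝ) (p : ((Fin L → ℝ) × (Fin L → ℝ)) × ℝ) : 0 ≤ nr J M n H₀ u v p :=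
  Finset.sum_nonneg fun s _ => Finset.sum_nonneg fun j _ => Finset.sum_nonneg fun a _ =>
    mul_nonneg (Nat.cast_nonneg _) (osum_nonneg _ _ _ _ _)

private lemma nr_le {L : ℕ} (J M n : ℕ) (H₀ : ℝ → ℝ) {u v : ℝ} (huv : u ≤ v) :
    ∃ C : ℝ, ∀ p : ((Fin L → ℝ) × (Fin L → ℝ)) × ℝ, nr J M n H₀ u v p ≤ C := by
  have h : ∀ A : Fin J → Finset (ℤ × ℤ), ∃ C : ℝ, ∀ p : ((Fin L → ℝ) × (Fin L → ℝ)) × ℝ, osum H₀ A u v p ≤ C := fun A => osum_le H₀ A huv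
  choose C hC using h
  refine ⟨∑ s ∈ Finset.range 22, ∑ j ∈ Finset.range (8 * M ^ s), ∑ a ∈ gapT J M, ((fq (arcs n s j a)).card : ℝ) * C (arcs n s j a), fun p => ?_⟩
  exact Finset.sum_le_sum fun s _ => Finset.sum_le_sum fun j _ => Finset.sum_le_sum fun a _ =>
    mul_le_mul_of_nonneg_left (hC _ p) (Nat.cast_nonneg _)

/-! ### the numbers -/

private lemma yy_pow_le {n k : ℕ} {e : ℝ} (h : (k : ℝ) / 40 ≤ e) : yy n ^ k ≤ ((2 : ℝ) ^ n) ^ e := by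
  unfold yy
  rw [← Real.rpow_natCast (((2 : ℝ) ^ n) ^ (1 / 40 : ℝ)) k, ← Real.rpow_mul (by positivity)]
  refine Real.rpow_le_rpow_of_exponent_le (one_le_pow₀ (by norm_num)) ?_
  have e1 : 1 / 40 * (k : ℝ) = (k : ℝ) / 40 := by ring
  rw [e1]
  exact h

private noncomputable def cA (J : ℕ) : ℝ := 368 * (4 * (J : ℝ)) ^ 22

private lemma cA_pos {J : ℕ} (hJ : 1 ≤ J) : 0 < cA J := by
  have : (0 : ℝ) < J := by exact_mod_cast hJ
  unfold cA
  positivity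

private lemma Aj_eq (J M : ℕ) : Aj J M 22 = cA J * M := by
  unfold Aj cA
  push_cast
  ring

private lemma fq_le2 {J n s j : ℕ} (hJ : 1 ≤ J) (hs : s ≤ 40) (a : Fin J → Fin (Mx n)) :
    ((fq (arcs n s j a)).card : ℝ) ≤ 54 * (J : ℝ) ^ 2 * (2 ^ n) ^ 2 / ((Mx n : ℕ) : ℝ) ^ s := by
  have hJ1 : (1 : ℝ) ≤ J := by exact_mod_cast hJ
  have hM0 : (0 : ℝ) < ((Mx n : ℕ) : ℝ) := by exact_mod_cast Mx_one n
  have hx : (1 : ℝ) ≤ 2 ^ n := one_le_pow₀ (by norm_num)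
  have hMt := Mx_pow_le (n := n) hs
  have hMt0 : 0 < ((Mx n : ℕ) : ℝ) ^ s := by positivity
  refine (arcs_fq_le (Mx_one n) a).trans ?_
  set x : ℝ := 2 ^ n with hxdef
  set m : ℝ := ((Mx n : ℕ) : ℝ) ^ s with hm
  have h0 : 1 ≤ (J : ℝ) * x := by nlinarith
  have h1 : 8 * (J : ℝ) * x + 1 ≤ 9 * (J * x) := by linarith
  have h2 : 5 * (J : ℝ) * x / m + 1 ≤ 6 * (J * x / m) := by
    have e2 : 1 ≤ J * x / m := by
      rw [le_div_iff₀ hMt0]
      nlinarith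
    have e4 : 5 * (J : ℝ) * x / m = 5 * (J * x / m) := by ring
    rw [e4]
    linarith
  calc (8 * (J : ℝ) * x + 1) * (5 * J * x / m + 1) ≤ 9 * (J * x) * (6 * (J * x / m)) :=
        mul_le_mul h1 h2 (by positivity) (by positivity)
    _ = 54 * (J : ℝ) ^ 2 * x ^ 2 / m := by ring

/-- the diagonal part -/
private lemma dg_le {J : ℕ} (hJ : 3 ≤ J) (n : ℕ) : Aj J (Mx n) 22 ^ (2 * J) * dg J (Mx n) n ≤
    ((60 * cA J * 2 ^ 21) ^ (2 * J) + cA J ^ (2 * J) * (22 * (432 * (J : ℝ) ^ 2 * 60 ^ J))) * ((2 : ℝ) ^ n) ^ (3 * J - 1 / 20 : ℝ) := by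
  have hJ1 : (1 : ℝ) ≤ J := by exact_mod_cast (by omega : 1 ≤ J)
  have hJ3 : (3 : ℝ) ≤ J := by exact_mod_cast hJ
  have hcA := cA_pos (J := J) (by omega)
  have hM1 : (1 : ℝ) ≤ ((Mx n : ℕ) : ℝ) := by exact_mod_cast Mx_one n
  have hM0 : (0 : ℝ) < ((Mx n : ℕ) : ℝ) := by linarith
  have hy1 := yy_one n
  have hy0 : 0 < yy n := by linarith
  have hx : (1 : ℝ) ≤ 2 ^ n := one_le_pow₀ (by norm_num)
  rw [Aj_eq]
  unfold dg
  rw [mul_add, add_mul]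
  refine add_le_add ?_ ?_
  · -- the last scale
    rw [← mul_pow]
    have h1 : cA J * ((Mx n : ℕ) : ℝ) * Dc (2 ^ n) (Mx n) 22 ≤ 60 * cA J * 2 ^ 21 * yy n ^ 59 := by
      have h2 := Dc_le (n := n) (t := 22) (by norm_num)
      have h3 : (yy n / 2) ^ 21 ≤ ((Mx n : ℕ) : ℝ) ^ 21 := pow_le_pow_left₀ (by positivity) (Mx_ge n) 21
      calc cA J * ((Mx n : ℕ) : ℝ) * Dc (2 ^ n) (Mx n) 22
          ≤ cA J * ((Mx n : ℕ) : ℝ) * (60 * (2 ^ n) ^ 2 / ((Mx n : ℕ) : ℝ) ^ 22) :=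
            mul_le_mul_of_nonneg_left h2 (by positivity)
        _ = 60 * cA J * (2 ^ n) ^ 2 / ((Mx n : ℕ) : ℝ) ^ 21 := by
            field_simp
        _ ≤ 60 * cA J * (2 ^ n) ^ 2 / (yy n / 2) ^ 21 :=
            div_le_div_of_nonneg_left (by positivity) (by positivity) h3
        _ = 60 * cA J * 2 ^ 21 * yy n ^ 59 := by
            rw [← yy_pow n]
            field_simp
    have h0 : 0 ≤ cA J * ((Mx n : ℕ) : ℝ) * Dc (2 ^ n) (Mx n) 22 :=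
      mul_nonneg (by positivity) (Dc_nonneg (by positivity) hM0.le 22)
    calc (cA J * ((Mx n : ℕ) : ℝ) * Dc (2 ^ n) (Mx n) 22) ^ (2 * J) ≤ (60 * cA J * 2 ^ 21 * yy n ^ 59) ^ (2 * J) :=
          pow_le_pow_left₀ h0 h1 _
      _ = (60 * cA J * 2 ^ 21) ^ (2 * J) * yy n ^ (118 * J) := by
          rw [mul_pow, ← pow_mul]
          congr 2
          ring
      _ ≤ _ := by
          refine mul_le_mul_of_nonneg_left (yy_pow_le ?_) (by positivity)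
          push_cast
          linarith
  · -- the other scales
    have h1 : ∀ s ∈ Finset.range 22, ∑ j ∈ Finset.range (8 * Mx n ^ s), ∑ a ∈ gapT J (Mx n),
        ((fq (arcs n s j a)).card : ℝ) * ∏ t, ((arcs n s j a t).card : ℝ) ≤ 432 * (J : ℝ) ^ 2 * 60 ^ J * (2 ^ n) ^ (2 * J + 2) := by
      intro s hs
      have hs22 : s < 22 := Finset.mem_range.1 hs
      have hMs : 0 < ((Mx n : ℕ) : ℝ) ^ s := by positivity
      have hMs1 : 0 < ((Mx n : ℕ) : ℝ) ^ (s + 1) := by positivity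
      set q : ℝ := (54 * (J : ℝ) ^ 2 * (2 ^ n) ^ 2 / ((Mx n : ℕ) : ℝ) ^ s) * (60 * (2 ^ n) ^ 2 / ((Mx n : ℕ) : ℝ) ^ (s + 1)) ^ J with hq
      have hq0 : 0 ≤ q := by positivity
      have h2 : ∀ j ∈ Finset.range (8 * Mx n ^ s), ∑ a ∈ gapT J (Mx n),
          ((fq (arcs n s j a)).card : ℝ) * ∏ t, ((arcs n s j a t).card : ℝ) ≤ ((Mx n : ℕ) : ℝ) ^ J * q := by
        intro j _
        have h3 : ∀ a ∈ gapT J (Mx n), ((fq (arcs n s j a)).card : ℝ) * ∏ t, ((arcs n s j a t).card : ℝ) ≤ q := by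
          intro a _
          refine mul_le_mul (fq_le2 (by omega) (by omega) a) ?_ (Finset.prod_nonneg fun i _ => Nat.cast_nonneg _) (by positivity)
          exact (arcs_prod_le (Mx_one n) a).trans (pow_le_pow_left₀ (Dc_nonneg (by positivity) hM0.le _) (Dc_le (by omega)) J)
        refine (Finset.sum_le_card_nsmul _ _ _ h3).trans ?_
        rw [nsmul_eq_mul]
        exact mul_le_mul_of_nonneg_right (gapT_card92 _ _) hq0
      refine (Finset.sum_le_card_nsmul _ _ _ h2).trans ?_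
      rw [Finset.card_range, nsmul_eq_mul, hq]
      push_cast
      have e1 : 8 * ((Mx n : ℕ) : ℝ) ^ s * (((Mx n : ℕ) : ℝ) ^ J * (54 * (J : ℝ) ^ 2 * (2 ^ n) ^ 2 / ((Mx n : ℕ) : ℝ) ^ s *
          (60 * (2 ^ n) ^ 2 / ((Mx n : ℕ) : ℝ) ^ (s + 1)) ^ J)) =
          432 * (J : ℝ) ^ 2 * 60 ^ J * (2 ^ n) ^ (2 * J + 2) * (((Mx n : ℕ) : ℝ) ^ J / (((Mx n : ℕ) : ℝ) ^ (s + 1)) ^ J) := by
        rw [div_pow, mul_pow, ← pow_mul]
        field_simp
        ring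
      rw [e1]
      refine mul_le_of_le_one_right (by positivity) ?_
      rw [div_le_one (by positivity)]
      exact pow_le_pow_left₀ hM0.le (le_self_pow₀ hM1 (by omega)) J
    have h4 : ∑ s ∈ Finset.range 22, ∑ j ∈ Finset.range (8 * Mx n ^ s), ∑ a ∈ gapT J (Mx n),
        ((fq (arcs n s j a)).card : ℝ) * ∏ t, ((arcs n s j a t).card : ℝ) ≤ 22 * (432 * (J : ℝ) ^ 2 * 60 ^ J * (2 ^ n) ^ (2 * J + 2)) := by
      refine (Finset.sum_le_card_nsmul _ _ _ h1).trans (le_of_eq ?_)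
      rw [Finset.card_range, nsmul_eq_mul]
      norm_num
    calc (cA J * ((Mx n : ℕ) : ℝ)) ^ (2 * J) * ∑ s ∈ Finset.range 22, ∑ j ∈ Finset.range (8 * Mx n ^ s), ∑ a ∈ gapT J (Mx n),
          ((fq (arcs n s j a)).card : ℝ) * ∏ t, ((arcs n s j a t).card : ℝ)
        ≤ (cA J * yy n) ^ (2 * J) * (22 * (432 * (J : ℝ) ^ 2 * 60 ^ J * (2 ^ n) ^ (2 * J + 2))) := by
          refine mul_le_mul (pow_le_pow_left₀ (by positivity) (mul_le_mul_of_nonneg_left (Mx_le n) hcA.le) _) h4 ?_ (by positivity)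
          exact Finset.sum_nonneg fun s _ => Finset.sum_nonneg fun j _ => Finset.sum_nonneg fun a _ =>
            mul_nonneg (Nat.cast_nonneg _) (Finset.prod_nonneg fun t _ => Nat.cast_nonneg _)
      _ = cA J ^ (2 * J) * (22 * (432 * (J : ℝ) ^ 2 * 60 ^ J)) * yy n ^ (82 * J + 80) := by
          rw [← yy_pow n, mul_pow, ← pow_mul]
          ring
      _ ≤ _ := by
          refine mul_le_mul_of_nonneg_left (yy_pow_le ?_) (by positivity)
          push_cast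
          linarith

/-- the mean of the nonresonant part -/
private lemma nr_mean {L J n : ℕ} (hJ : 3 ≤ J) (hJL : 2 * J ≤ L) {H₀ : ℝ → ℝ} (h0 : ContDiff ℝ 2 H₀) {α : ℝ} (hα : 1 / 2 ≤ |cos α|)
    (u : ℝ) {ℓ : ℝ} (hℓ : 0 ≤ ℓ) :
    ∫ w : (Fin L → ℝ) × (Fin L → ℝ), nr J (Mx n) n H₀ u (u + ℓ) (w, α) ∂(gm L) ≤
      22 * (432 * (J : ℝ) ^ 2 * 60 ^ (2 * J) * 2 ^ J * sqrt (400 * J * 4 ^ J)) * sqrt ℓ * (2 ^ n) ^ (6 * J + 3) := by
  have hJ0 : (0 : ℝ) < J := by exact_mod_cast (by omega : 0 < J)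
  have hM1 : (1 : ℝ) ≤ ((Mx n : ℕ) : ℝ) := by exact_mod_cast Mx_one n
  have hM0 : (0 : ℝ) < ((Mx n : ℕ) : ℝ) := by linarith
  have hx : (1 : ℝ) ≤ 2 ^ n := one_le_pow₀ (by norm_num)
  have hi : ∀ A : Fin J → Finset (ℤ × ℤ), Integrable (fun w : (Fin L → ℝ) × (Fin L → ℝ) => osum H₀ A u (u + ℓ) (w, α)) (gm L) := by
    intro A
    obtain ⟨C, hC⟩ := osum_le (L := L) H₀ A (show u ≤ u + ℓ by linarith)
    refine Integrable.of_bound (C := C) ?_ (ae_of_all _ fun w => ?_)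
    · exact ((osum_cont h0 A u (u + ℓ)).comp (continuous_id.prodMk continuous_const)).aestronglyMeasurable
    · rw [Real.norm_of_nonneg (osum_nonneg _ _ _ _ _)]
      exact hC _
  unfold nr
  rw [integral_finsetSum _ fun s _ => integrable_finsetSum _ fun j _ => integrable_finsetSum _ fun a _ => (hi _).const_mul _]
  set q : ℝ := 54 * (J : ℝ) ^ 2 * (2 ^ n) ^ 2 * (((60 * (2 ^ n) ^ 2) ^ J) ^ 2 * (sqrt (400 * J * 4 ^ J) * sqrt ℓ * (2 * 2 ^ n) ^ J)) with hq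
  have hq0 : 0 ≤ q := by positivity
  have h1 : ∀ s ∈ Finset.range 22, ∫ w : (Fin L → ℝ) × (Fin L → ℝ), ∑ j ∈ Finset.range (8 * Mx n ^ s), ∑ a ∈ gapT J (Mx n),
      ((fq (arcs n s j a)).card : ℝ) * osum H₀ (arcs n s j a) u (u + ℓ) (w, α) ∂(gm L) ≤ 8 * 2 ^ n * ((2 ^ n) ^ J * q) := by
    intro s hs
    have hs22 : s < 22 := Finset.mem_range.1 hs
    rw [integral_finsetSum _ fun j _ => integrable_finsetSum _ fun a _ => (hi _).const_mul _]
    have h2 : ∀ j ∈ Finset.range (8 * Mx n ^ s), ∫ w : (Fin L → ℝ) × (Fin L → ℝ), ∑ a ∈ gapT J (Mx n),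
        ((fq (arcs n s j a)).card : ℝ) * osum H₀ (arcs n s j a) u (u + ℓ) (w, α) ∂(gm L) ≤ (2 ^ n) ^ J * q := by
      intro j _
      rw [integral_finsetSum _ fun a _ => (hi _).const_mul _]
      have h3 : ∀ a ∈ gapT J (Mx n), ∫ w : (Fin L → ℝ) × (Fin L → ℝ),
          ((fq (arcs n s j a)).card : ℝ) * osum H₀ (arcs n s j a) u (u + ℓ) (w, α) ∂(gm L) ≤ q := by
        intro a ha
        rw [integral_const_mul]
        have hf : ((fq (arcs n s j a)).card : ℝ) ≤ 54 * (J : ℝ) ^ 2 * (2 ^ n) ^ 2 := by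
          refine (fq_le2 (by omega) (by omega) a).trans (div_le_self (by positivity) (one_le_pow₀ hM1))
        have hp : ∏ t, ((arcs n s j a t).card : ℝ) ≤ (60 * (2 ^ n) ^ 2) ^ J := by
          refine (arcs_prod_le (Mx_one n) a).trans (pow_le_pow_left₀ (Dc_nonneg (by positivity) hM0.le _) ?_ J)
          exact (Dc_le (by omega)).trans (div_le_self (by positivity) (one_le_pow₀ hM1))
        have hp0 : 0 ≤ ∏ t, ((arcs n s j a t).card : ℝ) := Finset.prod_nonneg fun t _ => Nat.cast_nonneg _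
        have hsq : sqrt (2 * ℓ / ((1 / (2 * ((Mx n : ℕ) : ℝ) ^ (s + 1))) ^ (2 * J) / (200 * J * 4 ^ J))) ≤
            sqrt (400 * J * 4 ^ J) * sqrt ℓ * (2 * 2 ^ n) ^ J := by
          have e1 : 2 * ℓ / ((1 / (2 * ((Mx n : ℕ) : ℝ) ^ (s + 1))) ^ (2 * J) / (200 * J * 4 ^ J)) =
              (400 * J * 4 ^ J) * ℓ * ((2 * ((Mx n : ℕ) : ℝ) ^ (s + 1)) ^ J) ^ 2 := by
            rw [one_div, inv_pow, ← pow_mul, mul_comm J 2]
            field_simp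
            ring
          rw [e1, Real.sqrt_mul (by positivity), Real.sqrt_mul (by positivity), Real.sqrt_sq (by positivity)]
          refine mul_le_mul_of_nonneg_left (pow_le_pow_left₀ (by positivity) ?_ J) (by positivity)
          exact mul_le_mul_of_nonneg_left (Mx_pow_le (by omega)) (by norm_num)
        rw [hq]
        refine mul_le_mul hf ?_ (integral_nonneg fun w => osum_nonneg _ _ _ _ _) (by positivity)
        refine (osum_mean (by omega) hJL (Mx_one n) h0 ha hα u hℓ).trans ?_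
        exact mul_le_mul (pow_le_pow_left₀ hp0 hp 2) hsq (sqrt_nonneg _) (by positivity)
      refine (Finset.sum_le_card_nsmul _ _ _ h3).trans ?_
      rw [nsmul_eq_mul]
      refine mul_le_mul_of_nonneg_right ((gapT_card92 _ _).trans (pow_le_pow_left₀ hM0.le ?_ J)) hq0
      have := Mx_pow_le (n := n) (t := 1) (by norm_num)
      rwa [pow_one] at this
    refine (Finset.sum_le_card_nsmul _ _ _ h2).trans ?_
    rw [Finset.card_range, nsmul_eq_mul]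
    push_cast
    refine mul_le_mul_of_nonneg_right ?_ (by positivity)
    exact mul_le_mul_of_nonneg_left (Mx_pow_le (by omega)) (by norm_num)
  refine (Finset.sum_le_card_nsmul _ _ _ h1).trans (le_of_eq ?_)
  rw [Finset.card_range, nsmul_eq_mul, hq]
  push_cast
  ring

/-! ### the exceptional set -/

private lemma k0_bd {β : ℝ} (hβ : 0 < β) (α : ℝ) : k0 β α ≤ 1 / β := by
  unfold k0
  rw [div_le_div_iff₀ (by positivity) hβ]
  nlinarith [sq_nonneg (sin α)]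

private instance fin_gd1 : IsFiniteMeasure (volume.restrict gd1) :=
  ⟨by rw [Measure.restrict_apply_univ]; exact gd1_compact.measure_lt_top⟩

/-- Fubini in the radius and the angle -/
private lemma swap_R {L J n : ℕ} {H₀ : ℝ → ℝ} (h0 : ContDiff ℝ 2 H₀) {β : ℝ} (hβ : 0 < β) (b : ℝ → ℤ × ℤ → ℂ)
    (hbc : ∀ k, Continuous (fun α => b α k)) (hb : ∀ α k, ‖b α k‖ ≤ 1) (w : (Fin L → ℝ) × (Fin L → ℝ)) (u v : ℝ) :
    ∫ R in Icc u v, ∫ α in gd1, k0 β α * Maj J (Mx n) 22 (Hw H₀ w) n (b α) R α =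
      ∫ α in gd1, k0 β α * ∫ R in Icc u v, Maj J (Mx n) 22 (Hw H₀ w) n (b α) R α := by
  obtain ⟨C, hC⟩ := Maj_bdd J (Mx n) 22 n
  have hc := Maj_cont (L := L) J (Mx n) 22 n h0 b hbc
  have hc2 : Continuous (fun p : ℝ × ℝ => Maj J (Mx n) 22 (Hw H₀ w) n (b p.2) p.1 p.2) := by
    have h2 : Continuous (fun p : ℝ × ℝ => (p, w)) := by fun_prop
    have h3 := hc.comp h2
    simp only [Function.comp_def] at h3
    exact h3
  have hi : Integrable (fun p : ℝ × ℝ => k0 β p.2 * Maj J (Mx n) 22 (Hw H₀ w) n (b p.2) p.1 p.2)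
      ((volume.restrict (Icc u v)).prod (volume.restrict gd1)) := by
    refine Integrable.of_bound (C := 1 / β * C) (((k0c hβ).comp continuous_snd).mul hc2).aestronglyMeasurable
      (ae_of_all _ fun p => ?_)
    have h1 := hC (Hw H₀ w) (b p.2) (hb p.2) p.1 p.2
    rw [Real.norm_of_nonneg (mul_nonneg (k0n hβ _) h1.1)]
    exact mul_le_mul (k0_bd hβ _) h1.2 h1.1 (by positivity)
  have h := integral_integral_swap (f := fun R α => k0 β α * Maj J (Mx n) 22 (Hw H₀ w) n (b α) R α) hi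
  rw [h]
  refine setIntegral_congr_fun gd1_meas fun α _ => ?_
  exact integral_const_mul _ _

theorem small_set' {J : ℕ} (hJ : 3 ≤ J) :
    ∃ δ C : ℝ, 0 < δ ∧ δ ≤ 1 / 4 ∧ 0 < C ∧ ∀ {L : ℕ}, 2 * J ≤ L → ∀ {H₀ : ℝ → ℝ}, ContDiff ℝ 2 H₀ →
      ∀ (R₀ : ℝ) (n : ℕ), 1 ≤ R₀ → (2 : ℝ) ^ n ≤ R₀ ^ δ →
      ∀ β : ℝ, 0 < β → ∀ b : ℝ → ℤ × ℤ → ℂ, (∀ k, Continuous (fun α => b α k)) → (∀ α k, ‖b α k‖ ≤ 1) →
        1 ≤ Mx n ∧ ∃ E : Set ((Fin L → ℝ) × (Fin L → ℝ)), (gm L).real E ≤ C * R₀ ^ (-(1 / 4) : ℝ) ∧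
          ∀ w ∉ E, ∫ R in Icc (R₀ / 2) (4 * R₀), ∫ α in gd1, k0 β α * Maj J (Mx n) 22 (Hw H₀ w) n (b α) R α ≤
            C * R₀ * ((2 : ℝ) ^ n) ^ (3 * J - 1 / 20 : ℝ) := by
  have hJ1 : (1 : ℝ) ≤ J := by exact_mod_cast (by omega : 1 ≤ J)
  have hJ3 : (3 : ℝ) ≤ J := by exact_mod_cast hJ
  have hcA := cA_pos (J := J) (by omega)
  obtain ⟨C₁, hC₁⟩ : ∃ C₁ : ℝ, C₁ = 22 * (432 * (J : ℝ) ^ 2 * 60 ^ (2 * J) * 2 ^ J * sqrt (400 * J * 4 ^ J)) := ⟨_, rfl⟩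
  obtain ⟨C₂, hC₂⟩ : ∃ C₂ : ℝ, C₂ = (60 * cA J * 2 ^ 21) ^ (2 * J) + cA J ^ (2 * J) * (22 * (432 * (J : ℝ) ^ 2 * 60 ^ J)) := ⟨_, rfl⟩
  have hC₁0 : 0 ≤ C₁ := by rw [hC₁]; positivity
  have hC₂0 : 0 ≤ C₂ := by rw [hC₂]; positivity
  refine ⟨1 / (4 * (8 * J + 3)), 1 + 70 * C₂ + 40 * cA J ^ (2 * J) * C₁, by positivity, ?_, by positivity, ?_⟩
  · rw [div_le_div_iff₀ (by positivity) (by norm_num)]
    linarith
  intro L hJL H₀ h0 R₀ n hR₀ hn β hβ b hbc hb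
  have hR0 : 0 < R₀ := by linarith
  have hx : (1 : ℝ) ≤ 2 ^ n := one_le_pow₀ (by norm_num)
  refine ⟨Mx_one n, ?_⟩
  -- the interval
  obtain ⟨ℓ, hℓ⟩ : ∃ ℓ : ℝ, ℓ = 7 / 2 * R₀ := ⟨_, rfl⟩
  have hℓ0 : 0 ≤ ℓ := by rw [hℓ]; positivity
  have hI : Icc (R₀ / 2) (4 * R₀) = Icc (R₀ / 2) (R₀ / 2 + ℓ) := by
    rw [hℓ]
    congr 1
    ring
  set G : ((Fin L → ℝ) × (Fin L → ℝ)) → ℝ := fun w =>
    ∫ α in gd1, k0 β α * (Aj J (Mx n) 22 ^ (2 * J) * nr J (Mx n) n H₀ (R₀ / 2) (R₀ / 2 + ℓ) (w, α)) with hG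
  have hA0 : 0 ≤ Aj J (Mx n) 22 ^ (2 * J) := by
    unfold Aj
    positivity
  have hnc := nr_cont (L := L) J (Mx n) n h0 (R₀ / 2) (R₀ / 2 + ℓ)
  obtain ⟨Cn, hCn⟩ := nr_le (L := L) J (Mx n) n H₀ (show R₀ / 2 ≤ R₀ / 2 + ℓ by linarith)
  have hFi : Integrable (fun p : ((Fin L → ℝ) × (Fin L → ℝ)) × ℝ => k0 β p.2 * (Aj J (Mx n) 22 ^ (2 * J) * nr J (Mx n) n H₀ (R₀ / 2) (R₀ / 2 + ℓ) p))
      ((gm L).prod (volume.restrict gd1)) := by
    refine Integrable.of_bound (C := 1 / β * (Aj J (Mx n) 22 ^ (2 * J) * Cn))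
      (((k0c hβ).comp continuous_snd).mul (continuous_const.mul hnc)).aestronglyMeasurable (ae_of_all _ fun p => ?_)
    have h1 := nr_nonneg J (Mx n) n H₀ (R₀ / 2) (R₀ / 2 + ℓ) p
    rw [Real.norm_of_nonneg (mul_nonneg (k0n hβ _) (mul_nonneg hA0 h1))]
    exact mul_le_mul (k0_bd hβ _) (mul_le_mul_of_nonneg_left (hCn p) hA0) (mul_nonneg hA0 h1) (by positivity)
  have hGi : Integrable G (gm L) := hFi.integral_prod_left
  have hG0 : ∀ w, 0 ≤ G w := fun w => setIntegral_nonneg gd1_meas fun α _ =>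
    mul_nonneg (k0n hβ _) (mul_nonneg hA0 (nr_nonneg _ _ _ _ _ _ _))
  -- the mean of `G`
  have hmean : ∫ w, G w ∂(gm L) ≤ 40 * cA J ^ (2 * J) * C₁ * R₀ ^ (3 / 4 : ℝ) := by
    have hsw : ∫ w, G w ∂(gm L) = ∫ α in gd1, ∫ w, k0 β α * (Aj J (Mx n) 22 ^ (2 * J) * nr J (Mx n) n H₀ (R₀ / 2) (R₀ / 2 + ℓ) (w, α)) ∂(gm L) :=
      integral_integral_swap (f := fun w α => k0 β α * (Aj J (Mx n) 22 ^ (2 * J) * nr J (Mx n) n H₀ (R₀ / 2) (R₀ / 2 + ℓ) (w, α))) hFi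
    rw [hsw]
    have h1 : ∫ α in gd1, ∫ w, k0 β α * (Aj J (Mx n) 22 ^ (2 * J) * nr J (Mx n) n H₀ (R₀ / 2) (R₀ / 2 + ℓ) (w, α)) ∂(gm L) ≤
        ∫ α in gd1, k0 β α * (Aj J (Mx n) 22 ^ (2 * J) * (C₁ * sqrt ℓ * (2 ^ n) ^ (6 * J + 3))) := by
      apply setIntegral_mono_on
      · exact hFi.integral_prod_right
      · exact ((k0c hβ).mul continuous_const).continuousOn.integrableOn_compact gd1_compact
      · exact gd1_meas
      · intro α hα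
        rw [integral_const_mul, integral_const_mul]
        refine mul_le_mul_of_nonneg_left (mul_le_mul_of_nonneg_left ?_ hA0) (k0n hβ α)
        rw [hC₁]
        exact nr_mean hJ hJL h0 hα.2 (R₀ / 2) hℓ0
    refine h1.trans ?_
    rw [integral_mul_const]
    have hsq : sqrt ℓ ≤ 2 * R₀ ^ (1 / 2 : ℝ) := by
      rw [← Real.sqrt_eq_rpow, hℓ]
      calc sqrt (7 / 2 * R₀) ≤ sqrt (2 ^ 2 * R₀) := Real.sqrt_le_sqrt (by linarith)
        _ = 2 * sqrt R₀ := by rw [Real.sqrt_mul (by norm_num), Real.sqrt_sq (by norm_num)]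
    have hAx : Aj J (Mx n) 22 ^ (2 * J) ≤ cA J ^ (2 * J) * (2 ^ n) ^ (2 * J) := by
      rw [Aj_eq, mul_pow]
      refine mul_le_mul_of_nonneg_left (pow_le_pow_left₀ (Nat.cast_nonneg _) ?_ _) (by positivity)
      have := Mx_pow_le (n := n) (t := 1) (by norm_num)
      rwa [pow_one] at this
    have hxp : ((2 : ℝ) ^ n) ^ (8 * J + 3) ≤ R₀ ^ (1 / 4 : ℝ) := by
      calc ((2 : ℝ) ^ n) ^ (8 * J + 3) ≤ (R₀ ^ (1 / (4 * (8 * (J : ℝ) + 3)))) ^ (8 * J + 3) := pow_le_pow_left₀ (by positivity) hn _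
        _ = R₀ ^ (1 / 4 : ℝ) := by
            rw [← Real.rpow_natCast (R₀ ^ (1 / (4 * (8 * (J : ℝ) + 3)))), ← Real.rpow_mul hR0.le]
            congr 1
            push_cast
            field_simp
    have hk := k0_gd1 hβ
    have hk0 : 0 ≤ ∫ α in gd1, k0 β α := setIntegral_nonneg gd1_meas fun α _ => k0n hβ α
    calc (∫ α in gd1, k0 β α) * (Aj J (Mx n) 22 ^ (2 * J) * (C₁ * sqrt ℓ * (2 ^ n) ^ (6 * J + 3)))
        ≤ 20 * ((cA J ^ (2 * J) * (2 ^ n) ^ (2 * J)) * (C₁ * (2 * R₀ ^ (1 / 2 : ℝ)) * (2 ^ n) ^ (6 * J + 3))) := by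
          refine mul_le_mul hk ?_ (by positivity) (by norm_num)
          refine mul_le_mul hAx ?_ (by positivity) (by positivity)
          exact mul_le_mul_of_nonneg_right (mul_le_mul_of_nonneg_left hsq hC₁0) (by positivity)
      _ = 40 * cA J ^ (2 * J) * C₁ * (R₀ ^ (1 / 2 : ℝ) * (2 ^ n) ^ (8 * J + 3)) := by ring
      _ ≤ 40 * cA J ^ (2 * J) * C₁ * (R₀ ^ (1 / 2 : ℝ) * R₀ ^ (1 / 4 : ℝ)) := by
          refine mul_le_mul_of_nonneg_left (mul_le_mul_of_nonneg_left hxp (by positivity)) (by positivity)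
      _ = 40 * cA J ^ (2 * J) * C₁ * R₀ ^ (3 / 4 : ℝ) := by
          rw [← Real.rpow_add hR0]
          norm_num
  refine ⟨{w | R₀ ≤ G w}, ?_, ?_⟩
  · -- Markov
    have h1 := mul_meas_ge_le_integral_of_nonneg (μ := gm L) (f := G) (Eventually.of_forall hG0) hGi R₀
    have h2 : (gm L).real {w | R₀ ≤ G w} ≤ (40 * cA J ^ (2 * J) * C₁ * R₀ ^ (3 / 4 : ℝ)) / R₀ := by
      rw [le_div_iff₀ hR0, mul_comm]
      exact h1.trans hmean
    refine h2.trans ?_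
    have e1 : 40 * cA J ^ (2 * J) * C₁ * R₀ ^ (3 / 4 : ℝ) / R₀ = 40 * cA J ^ (2 * J) * C₁ * R₀ ^ (-(1 / 4) : ℝ) := by
      rw [mul_div_assoc]
      congr 1
      rw [div_eq_iff hR0.ne']
      nth_rewrite 3 [← Real.rpow_one R₀]
      rw [← Real.rpow_add hR0]
      norm_num
    rw [e1]
    refine mul_le_mul_of_nonneg_right ?_ (by positivity)
    linarith
  · intro w hw
    have hw' : G w < R₀ := by
      by_contra hcon
      exact hw (not_lt.1 hcon)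
    rw [swap_R h0 hβ b hbc hb w, hI]
    have hnw : Continuous (fun α : ℝ => nr J (Mx n) n H₀ (R₀ / 2) (R₀ / 2 + ℓ) (w, α)) := by
      have h2 : Continuous (fun α : ℝ => (w, α)) := by fun_prop
      exact hnc.comp h2
    have hi1 : IntegrableOn (fun α => k0 β α * (Aj J (Mx n) 22 ^ (2 * J) * (ℓ * dg J (Mx n) n))) gd1 :=
      ((k0c hβ).mul continuous_const).continuousOn.integrableOn_compact gd1_compact
    have hi2 : IntegrableOn (fun α => k0 β α * (Aj J (Mx n) 22 ^ (2 * J) * nr J (Mx n) n H₀ (R₀ / 2) (R₀ / 2 + ℓ) (w, α))) gd1 :=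
      ((k0c hβ).mul (continuous_const.mul hnw)).continuousOn.integrableOn_compact gd1_compact
    obtain ⟨C, hC⟩ := Maj_bdd J (Mx n) 22 n
    have hMi : IntegrableOn (fun α => k0 β α * ∫ R in Icc (R₀ / 2) (R₀ / 2 + ℓ), Maj J (Mx n) 22 (Hw H₀ w) n (b α) R α) gd1 := by
      have hc := Maj_cont (L := L) J (Mx n) 22 n h0 b hbc
      have h2 : Continuous (fun p : ℝ × ℝ => (((p.2, p.1) : ℝ × ℝ), w)) := by fun_prop
      have h3 := hc.comp h2
      simp only [Function.comp_def] at h3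
      have h4 : Continuous (fun α : ℝ => ∫ R in Icc (R₀ / 2) (R₀ / 2 + ℓ), Maj J (Mx n) 22 (Hw H₀ w) n (b α) R α) :=
        continuous_parametric_integral_of_continuous h3 isCompact_Icc
      exact ((k0c hβ).mul h4).continuousOn.integrableOn_compact gd1_compact
    have h1 : ∫ α in gd1, k0 β α * ∫ R in Icc (R₀ / 2) (R₀ / 2 + ℓ), Maj J (Mx n) 22 (Hw H₀ w) n (b α) R α ≤
        ∫ α in gd1, (k0 β α * (Aj J (Mx n) 22 ^ (2 * J) * (ℓ * dg J (Mx n) n)) +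
          k0 β α * (Aj J (Mx n) 22 ^ (2 * J) * nr J (Mx n) n H₀ (R₀ / 2) (R₀ / 2 + ℓ) (w, α))) := by
      apply setIntegral_mono_on hMi (hi1.add hi2) gd1_meas
      intro α _
      have e1 := Maj_R (J := J) (M := Mx n) (n := n) h0 (b α) (hb α) w (R₀ / 2) hℓ0 α
      have e2 := mul_le_mul_of_nonneg_left e1 (k0n hβ α)
      rw [mul_add, mul_add] at e2
      exact e2
    refine h1.trans ?_
    rw [integral_add hi1 hi2, integral_mul_const]
    have h2 := dg_le hJ n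
    rw [← hC₂] at h2
    have hk := k0_gd1 hβ
    have hk0 : 0 ≤ ∫ α in gd1, k0 β α := setIntegral_nonneg gd1_meas fun α _ => k0n hβ α
    have hpw : (1 : ℝ) ≤ ((2 : ℝ) ^ n) ^ (3 * J - 1 / 20 : ℝ) := Real.one_le_rpow hx (by linarith)
    have h3 : (∫ α in gd1, k0 β α) * (Aj J (Mx n) 22 ^ (2 * J) * (ℓ * dg J (Mx n) n)) ≤
        20 * (ℓ * (C₂ * ((2 : ℝ) ^ n) ^ (3 * J - 1 / 20 : ℝ))) := by
      have e1 : Aj J (Mx n) 22 ^ (2 * J) * (ℓ * dg J (Mx n) n) = ℓ * (Aj J (Mx n) 22 ^ (2 * J) * dg J (Mx n) n) := by ring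
      rw [e1]
      have hdg0 : 0 ≤ dg J (Mx n) n := by
        unfold dg
        refine add_nonneg ?_ ?_
        · exact pow_nonneg (Dc_nonneg (by positivity) (Nat.cast_nonneg _) 22) _
        · exact Finset.sum_nonneg fun s _ => Finset.sum_nonneg fun j _ => Finset.sum_nonneg fun a _ =>
            mul_nonneg (Nat.cast_nonneg _) (Finset.prod_nonneg fun t _ => Nat.cast_nonneg _)
      exact mul_le_mul hk (mul_le_mul_of_nonneg_left h2 hℓ0) (by positivity) (by norm_num)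
    have h4 : (∫ α in gd1, k0 β α * (Aj J (Mx n) 22 ^ (2 * J) * nr J (Mx n) n H₀ (R₀ / 2) (R₀ / 2 + ℓ) (w, α))) = G w := rfl
    rw [h4]
    have h5 : R₀ ≤ R₀ * ((2 : ℝ) ^ n) ^ (3 * J - 1 / 20 : ℝ) := le_mul_of_one_le_right hR0.le hpw
    have h6 : 0 ≤ 40 * cA J ^ (2 * J) * C₁ * (R₀ * ((2 : ℝ) ^ n) ^ (3 * J - 1 / 20 : ℝ)) := by positivity
    calc (∫ α in gd1, k0 β α) * (Aj J (Mx n) 22 ^ (2 * J) * (ℓ * dg J (Mx n) n)) + G w
        ≤ 20 * (ℓ * (C₂ * ((2 : ℝ) ^ n) ^ (3 * J - 1 / 20 : ℝ))) + R₀ * ((2 : ℝ) ^ n) ^ (3 * J - 1 / 20 : ℝ) := by linarith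
      _ = (1 + 70 * C₂) * (R₀ * ((2 : ℝ) ^ n) ^ (3 * J - 1 / 20 : ℝ)) := by rw [hℓ]; ring
      _ ≤ (1 + 70 * C₂ + 40 * cA J ^ (2 * J) * C₁) * R₀ * ((2 : ℝ) ^ n) ^ (3 * J - 1 / 20 : ℝ) := by
          linarith

theorem small_set {L J : ℕ} (hJ : 3 ≤ J) (hJL : 2 * J ≤ L) {H₀ : ℝ → ℝ} (h0 : ContDiff ℝ 2 H₀) :
    ∃ δ C : ℝ, 0 < δ ∧ δ ≤ 1 / 4 ∧ 0 < C ∧ ∀ (R₀ : ℝ) (n : ℕ), 1 ≤ R₀ → (2 : ℝ) ^ n ≤ R₀ ^ δ →
      ∀ β : ℝ, 0 < β → ∀ b : ℝ → ℤ × ℤ → ℂ, (∀ k, Continuous (fun α => b α k)) → (∀ α k, ‖b α k‖ ≤ 1) →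
        1 ≤ Mx n ∧ ∃ E : Set ((Fin L → ℝ) × (Fin L → ℝ)), (gm L).real E ≤ C * R₀ ^ (-(1 / 4) : ℝ) ∧
          ∀ w ∉ E, ∫ R in Icc (R₀ / 2) (4 * R₀), ∫ α in gd1, k0 β α * Maj J (Mx n) 22 (Hw H₀ w) n (b α) R α ≤
            C * R₀ * ((2 : ℝ) ^ n) ^ (3 * J - 1 / 20 : ℝ) := by
  obtain ⟨δ, C, h1, h2, h3, h4⟩ := small_set' hJ
  exact ⟨δ, C, h1, h2, h3, h4 hJL h0⟩

end Pool.Agent.Helper92.MMS
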