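import Pool.Agent.Helper92.MM.Defs
import Pool.Agent.Helper96.AD.A1

/-!
# MM-M4: expansion of the square function over the pairs of tuples
-/

open MeasureTheory Real Set Filter Topology

set_option autoImplicit false

namespace Pool.Agent.Helper92.MMS

open Pool.Agent.Helper22.AE
open Pool.Agent.Helper60.AD
open Pool.Agent.Helper92.MM

/-- expansion of `Yq` over the pairs of tuples -/
theorem Yq_pairs {J : ℕ} (h : ℝ → ℝ) (A : Fin J → Finset (ℤ × ℤ)) (b : ℤ × ℤ → ℂ) (hb : ∀ k, ‖b k‖ ≤ 1)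
    (a : ℝ) {ℓ : ℝ} (hℓ : 0 ≤ ℓ) (α : ℝ) :
    ∫ R in Icc a (a + ℓ), Yq h A (fun _ => b) R α ≤ ℓ * ∏ t, ((A t).card : ℝ) +
      ∑ k ∈ Fintype.piFinset A, ∑ k' ∈ (Fintype.piFinset A).filter (fun k' => k' ≠ k),
        ‖∫ R in Icc a (a + ℓ), ee (-(R * Ph h k k' α))‖ := by
  classical
  have hB : ∀ k : Fin J → ℤ × ℤ, ‖∏ t, b (k t)‖ ≤ 1 := by
    intro k
    rw [norm_prod]
    exact Finset.prod_le_one (fun t _ => norm_nonneg _) (fun t _ => hb (k t))
  have hterm : ∀ (k : Fin J → ℤ × ℤ) (R : ℝ), ∏ t, (b (k t) * ee (-(R * (nk (k t) * gph h (k t) α)))) =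
      (∏ t, b (k t)) * ee (-(R * ∑ t, nk (k t) * gph h (k t) α)) := by
    intro k R
    rw [Finset.prod_mul_distrib]
    congr 1
    rw [Finset.mul_sum, ← Finset.sum_neg_distrib]
    exact (Pool.Agent.Helper96.AD.ee_fsum Finset.univ fun t => -(R * (nk (k t) * gph h (k t) α))).symm
  have hexp : ∀ R : ℝ, Yq h A (fun _ => b) R α = ∑ m ∈ fq A, ∑ k ∈ (Fintype.piFinset A).filter (fun k => ∑ t, k t = m),
      ∑ k' ∈ (Fintype.piFinset A).filter (fun k => ∑ t, k t = m),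
        ((∏ t, b (k t)) * (starRingEnd ℂ) (∏ t, b (k' t)) * ee (-(R * Ph h k k' α))).re := by
    intro R
    unfold Yq co
    refine Finset.sum_congr rfl fun m _ => ?_
    have h1 : ∀ z : ℂ, ‖z‖ ^ 2 = (z * (starRingEnd ℂ) z).re := by
      intro z
      rw [Complex.mul_conj, Complex.normSq_eq_norm_sq, Complex.ofReal_re]
    rw [h1, map_sum, Finset.sum_mul_sum, Complex.re_sum]
    refine Finset.sum_congr rfl fun k _ => ?_
    rw [Complex.re_sum]
    refine Finset.sum_congr rfl fun k' _ => ?_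
    congr 1
    rw [hterm, hterm, map_mul, ← ee_neg]
    have e : ee (-(R * Ph h k k' α)) = ee (-(R * ∑ t, nk (k t) * gph h (k t) α)) * ee (-(-(R * ∑ t, nk (k' t) * gph h (k' t) α))) := by
      rw [← ee_add]
      congr 1
      unfold Ph
      ring
    rw [e]
    ring
  have hc : ∀ k k' : Fin J → ℤ × ℤ, Continuous fun R : ℝ => (∏ t, b (k t)) * (starRingEnd ℂ) (∏ t, b (k' t)) * ee (-(R * Ph h k k' α)) := by
    intro k k'
    exact continuous_const.mul (ee_cont.comp (by fun_prop))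
  have hi : ∀ k k' : Fin J → ℤ × ℤ, Integrable (fun R : ℝ => (∏ t, b (k t)) * (starRingEnd ℂ) (∏ t, b (k' t)) * ee (-(R * Ph h k k' α)))
      (volume.restrict (Icc a (a + ℓ))) := fun k k' => (hc k k').continuousOn.integrableOn_compact isCompact_Icc
  have hi' : ∀ k k' : Fin J → ℤ × ℤ, Integrable (fun R : ℝ => ((∏ t, b (k t)) * (starRingEnd ℂ) (∏ t, b (k' t)) * ee (-(R * Ph h k k' α))).re)
      (volume.restrict (Icc a (a + ℓ))) := fun k k' => (hi k k').re
  have hle : ∀ k k' : Fin J → ℤ × ℤ, ∫ R in Icc a (a + ℓ), ((∏ t, b (k t)) * (starRingEnd ℂ) (∏ t, b (k' t)) * ee (-(R * Ph h k k' α))).re ≤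
      ‖∫ R in Icc a (a + ℓ), ee (-(R * Ph h k k' α))‖ := by
    intro k k'
    have e1 : ∫ R in Icc a (a + ℓ), ((∏ t, b (k t)) * (starRingEnd ℂ) (∏ t, b (k' t)) * ee (-(R * Ph h k k' α))).re =
        (∫ R in Icc a (a + ℓ), (∏ t, b (k t)) * (starRingEnd ℂ) (∏ t, b (k' t)) * ee (-(R * Ph h k k' α))).re :=
      integral_re (hi k k')
    rw [e1, integral_const_mul]
    refine (Complex.re_le_norm _).trans ?_
    rw [norm_mul, norm_mul, RCLike.norm_conj]
    have h1 : ‖∏ t, b (k t)‖ * ‖∏ t, b (k' t)‖ ≤ 1 := mul_le_one₀ (hB k) (norm_nonneg _) (hB k')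
    exact mul_le_of_le_one_left (norm_nonneg _) h1
  have hdiag : ∀ k : Fin J → ℤ × ℤ, ‖∫ R in Icc a (a + ℓ), ee (-(R * Ph h k k α))‖ = ℓ := by
    intro k
    have e : ∀ R : ℝ, ee (-(R * Ph h k k α)) = 1 := by
      intro R
      unfold Ph
      rw [sub_self, mul_zero, neg_zero]
      exact ee_zero
    simp_rw [e]
    rw [setIntegral_const, Measure.real, Real.volume_Icc, add_sub_cancel_left, ENNReal.toReal_ofReal hℓ, norm_smul, norm_one, mul_one,
      Real.norm_of_nonneg hℓ]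
  simp_rw [hexp]
  rw [integral_finsetSum _ fun m _ => integrable_finsetSum _ fun k _ => integrable_finsetSum _ fun k' _ => hi' k k']
  have h2 : ∀ m ∈ fq A, ∫ R in Icc a (a + ℓ), ∑ k ∈ (Fintype.piFinset A).filter (fun k => ∑ t, k t = m),
      ∑ k' ∈ (Fintype.piFinset A).filter (fun k => ∑ t, k t = m),
        ((∏ t, b (k t)) * (starRingEnd ℂ) (∏ t, b (k' t)) * ee (-(R * Ph h k k' α))).re ≤
      ∑ k ∈ (Fintype.piFinset A).filter (fun k => ∑ t, k t = m), (ℓ + ∑ k' ∈ (Fintype.piFinset A).filter (fun k' => k' ≠ k),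
        ‖∫ R in Icc a (a + ℓ), ee (-(R * Ph h k k' α))‖) := by
    intro m _
    rw [integral_finsetSum _ fun k _ => integrable_finsetSum _ fun k' _ => hi' k k']
    refine Finset.sum_le_sum fun k hk => ?_
    rw [integral_finsetSum _ fun k' _ => hi' k k']
    have hk' := (Finset.mem_filter.1 hk).1
    calc ∑ k' ∈ (Fintype.piFinset A).filter (fun k => ∑ t, k t = m),
          ∫ R in Icc a (a + ℓ), ((∏ t, b (k t)) * (starRingEnd ℂ) (∏ t, b (k' t)) * ee (-(R * Ph h k k' α))).re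
        ≤ ∑ k' ∈ (Fintype.piFinset A).filter (fun k => ∑ t, k t = m), ‖∫ R in Icc a (a + ℓ), ee (-(R * Ph h k k' α))‖ :=
          Finset.sum_le_sum fun k' _ => hle k k'
      _ ≤ ∑ k' ∈ Fintype.piFinset A, ‖∫ R in Icc a (a + ℓ), ee (-(R * Ph h k k' α))‖ :=
          Finset.sum_le_sum_of_subset_of_nonneg (Finset.filter_subset _ _) fun _ _ _ => norm_nonneg _
      _ = ℓ + ∑ k' ∈ (Fintype.piFinset A).filter (fun k' => k' ≠ k), ‖∫ R in Icc a (a + ℓ), ee (-(R * Ph h k k' α))‖ := by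
          rw [Finset.filter_ne', ← Finset.add_sum_erase _ _ hk', hdiag]
  refine (Finset.sum_le_sum h2).trans (le_of_eq ?_)
  have h3 := Finset.sum_fiberwise_of_maps_to (s := Fintype.piFinset A) (t := fq A) (g := fun k => ∑ t, k t)
    (fun k hk => Finset.mem_image_of_mem _ hk) (fun k => ℓ + ∑ k' ∈ (Fintype.piFinset A).filter (fun k' => k' ≠ k),
        ‖∫ R in Icc a (a + ℓ), ee (-(R * Ph h k k' α))‖)
  rw [h3, Finset.sum_add_distrib, Finset.sum_const, Fintype.card_piFinset, nsmul_eq_mul, Nat.cast_prod, mul_comm]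

end Pool.Agent.Helper92.MMS
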